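import Mathlib
import Pool.Agent.Q263.WJ.Main

/-!
# An irreducible lattice all of whose weak Jacobi forms of index one have positive weight

The question asks whether for every even positive definite lattice `L` which is irreducible and
not unimodular the free module of weak Jacobi forms of index one over the ring of modular forms
for `SL(2, ℤ)` has a homogeneous basis consisting of forms of non-positive weight, exactly one of
them of weight `0`. The answer is NO.

Counterexample: the lattice of rank `23` and determinant `2` which has a basis consisting of a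
chain `e 1, …, e 22` of vectors of norm `2` (with `(e i, e (i + 1)) = -1`) and of a vector of norm
`4` with product `-1` with `e 5` and `0` with the others (the orthogonal complement of a root in the
Niemeier lattice with root system `A₂₄`). It has no weak Jacobi forms of weight `≤ 2` except `0`, so
every homogeneous basis consists of forms of weight `≥ 3` (in fact the weights are `6` and `8`).

General vanishing theorem: if every class of `L' / L` contains a vector of norm at most `κ` and
`k + 6 κ < rank L / 2`, then there are no weak Jacobi forms of weight `k` and index one for `L`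
except `0`.

Idea of the proof: the mean value over `x, t ∈ ℝⁿ / ℤⁿ` of
`|φ(τ, x + t τ) exp(π i τ (t, t))|²`, times `(Im τ)ᵏ`, is invariant under `SL(2, ℤ)`; it is at
most of the order `exp (2 π κ Im τ) (Im τ)ᵏ` at the cusp, and at least of the order
`(Im τ)^(k - n / 2) |F|²` near the real line for every theta coefficient `F` (Bessel's inequality).
After multiplication by a power of the discriminant the invariant is bounded, and `F` times a power
of the discriminant tends to zero at the real line, so `F = 0`.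
-/

set_option autoImplicit false

open Complex
open UpperHalfPlane hiding I
open scoped MatrixGroups

namespace Pool.Agent.Results.MP_c5c797_nt.PositiveWeights

open Pool.Agent.Q263.WJ

/-- The assertion of the question. -/
def Question : Prop :=
  ∀ (n : ℕ) (A : Matrix (Fin n) (Fin n) ℤ), EvenPosDef A → Irred A → ¬ Unimodular A →
    ∃ (ι : Type) (k : ι → ℤ) (φ : ι → ℍ → (Fin n → ℂ) → ℂ),
      HomBasis A k φ ∧ (∀ i, k i ≤ 0) ∧ ∃! i, k i = 0

/-- the covering condition in terms of norms -/
lemma cov_of_norm {n : ℕ} {A : Matrix (Fin n) (Fin n) ℤ} (hA : EvenPosDef A) (κ : ℝ)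
    (h : ∀ v ∈ Dual A, ∃ x : Fin n → ℤ,
      ∑ i, ∑ j, (A i j : ℝ) * (v i - x i) * (v j - x j) ≤ κ) : Cov A κ := by
  obtain ⟨hs, _, hp⟩ := hA
  intro m
  -- the matrix is invertible
  set T : (Fin n → ℝ) →ₗ[ℝ] (Fin n → ℝ) := Matrix.mulVecLin (A.map (Int.cast : ℤ → ℝ)) with hT
  have hTv : ∀ v i, T v i = ∑ j, (A i j : ℝ) * v j := by
    intro v i
    rw [hT, Matrix.mulVecLin_apply]
    rfl
  have hinj : Function.Injective T := by
    rw [injective_iff_map_eq_zero]
    intro v hv
    by_contra hne
    have h1 := hp v hne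
    have h2 : ∑ i, ∑ j, (A i j : ℝ) * v i * v j = ∑ i, v i * T v i := by
      refine Finset.sum_congr rfl fun i _ => ?_
      rw [hTv, Finset.mul_sum]
      refine Finset.sum_congr rfl fun j _ => ?_
      ring
    rw [h2, hv] at h1
    simp at h1
  obtain ⟨v, hv⟩ := (LinearMap.injective_iff_surjective.1 hinj) (fun i => (m i : ℝ))
  have hv' : ∀ i, ∑ j, (A i j : ℝ) * v j = m i := fun i => by rw [← hTv, hv]
  obtain ⟨x, hx⟩ := h v (by
    intro y
    refine ⟨∑ i, y i * m i, ?_⟩
    push_cast
    refine Finset.sum_congr rfl fun i _ => ?_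
    rw [← hv' i, Finset.mul_sum]
    refine Finset.sum_congr rfl fun j _ => ?_
    ring)
  refine ⟨m - Al A x, x, by ring, fun s => ?_⟩
  set w : Fin n → ℝ := fun i => v i - x i with hw
  have h1 : ∀ i, (((m - Al A x) i : ℤ) : ℝ) = ∑ j, (A i j : ℝ) * w j := by
    intro i
    simp only [Pi.sub_apply]
    unfold Al
    push_cast
    rw [← hv' i, ← Finset.sum_sub_distrib]
    refine Finset.sum_congr rfl fun j _ => ?_
    rw [hw]
    ring
  have h2 : ∑ i, (((m - Al A x) i : ℤ) : ℝ) * s i = bf A s w := by
    unfold bf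
    refine Finset.sum_congr rfl fun i _ => ?_
    rw [h1, Finset.sum_mul]
    refine Finset.sum_congr rfl fun j _ => ?_
    ring
  have h3 := bf_add_self A hs w s
  have h4 : 0 ≤ bf A (w + s) (w + s) := by
    by_cases h0 : w + s = 0
    · rw [h0]
      unfold bf
      simp
    · exact (hp _ h0).le
  have h5 : bf A w w ≤ κ := hx
  rw [h2]
  linarith

/-- the elements of a homogeneous basis are not zero -/
lemma basis_ne_zero {n : ℕ} {A : Matrix (Fin n) (Fin n) ℤ} {ι : Type} {k : ι → ℤ}
    {φ : ι → ℍ → (Fin n → ℂ) → ℂ} (h : HomBasis A k φ) (i : ι) : ¬ ∀ τ z, φ i τ z = 0 := by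
  classical
  intro h0
  obtain ⟨g, hg, hu⟩ := h.basis (k i) (φ i) (h.mem i)
  have h1 := hu (fun _ => 0) ⟨by simp, fun τ z => by
    rw [h0 τ z]
    simp⟩
  set e : ModularForm 𝒮ℒ (k i - k i) :=
    ModularForm.mcast (sub_self (k i)).symm (1 : ModularForm 𝒮ℒ 0) with he
  have h2 := hu (Function.update (fun _ => 0) i e) ⟨by
      apply Set.Finite.subset (Set.finite_singleton i)
      intro j hj
      by_contra hne
      rw [Set.mem_singleton_iff] at hne
      exact hj (Function.update_of_ne hne _ _), fun τ z => by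
      rw [h0 τ z]
      symm
      apply finsum_eq_zero_of_forall_eq_zero
      intro j
      by_cases hj : j = i
      · subst hj
        rw [h0 τ z, mul_zero]
      · rw [Function.update_of_ne hj]
        simp⟩
  have h3 := congrFun (h1.trans h2.symm) i
  rw [Function.update_self] at h3
  have h4 : e UpperHalfPlane.I = 0 := by
    rw [← h3]
    rfl
  have h5 : e UpperHalfPlane.I = 1 := rfl
  rw [h5] at h4
  exact one_ne_zero h4

theorem result :
    ¬ Question ∧
    (∃ A : Matrix (Fin 23) (Fin 23) ℤ, EvenPosDef A ∧ Irred A ∧ ¬ Unimodular A ∧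
      (∀ (k : ℤ) (φ : ℍ → (Fin 23 → ℂ) → ℂ), k ≤ 2 → WeakJacobi A k φ → ∀ τ z, φ τ z = 0) ∧
      ∀ (ι : Type) (k : ι → ℤ) (φ : ι → ℍ → (Fin 23 → ℂ) → ℂ), HomBasis A k φ → ∀ i, 3 ≤ k i) ∧
    (∀ (n : ℕ) (A : Matrix (Fin n) (Fin n) ℤ), EvenPosDef A → ∀ κ : ℝ,
      (∀ v ∈ Dual A, ∃ x : Fin n → ℤ,
        ∑ i, ∑ j, (A i j : ℝ) * (v i - x i) * (v j - x j) ≤ κ) →
      ∀ (k : ℤ) (φ : ℍ → (Fin n → ℂ) → ℂ), (k : ℝ) + 6 * κ < n / 2 → WeakJacobi A k φ →
        ∀ τ z, φ τ z = 0) := by
  have hvan : ∀ (k : ℤ) (φ : ℍ → (Fin 23 → ℂ) → ℂ), k ≤ 2 → WeakJacobi TA k φ →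
      ∀ τ z, φ τ z = 0 := by
    intro k φ hk hφ
    refine vanish evenPosDef_TA (3 / 2) cov_TA ?_ hφ
    have : (k : ℝ) ≤ 2 := by exact_mod_cast hk
    norm_num
    linarith
  have hbas : ∀ (ι : Type) (k : ι → ℤ) (φ : ι → ℍ → (Fin 23 → ℂ) → ℂ), HomBasis TA k φ →
      ∀ i, 3 ≤ k i := by
    intro ι k φ h i
    by_contra hlt
    exact basis_ne_zero h i (hvan (k i) (φ i) (by omega) (h.mem i))
  refine ⟨?_, ⟨TA, evenPosDef_TA, irred_TA, not_unimodular_TA, hvan, hbas⟩, ?_⟩
  · intro hq
    obtain ⟨ι, k, φ, h1, h2, i, hi, _⟩ := hq 23 TA evenPosDef_TA irred_TA not_unimodular_TA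
    have h3 := hbas ι k φ h1 i
    have h4 : k i = 0 := hi
    omega
  · intro n A hA κ hκ k φ hk hφ
    exact vanish hA κ (cov_of_norm hA κ hκ) hk hφ

end Pool.Agent.Results.MP_c5c797_nt.PositiveWeights
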